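import Mathlib
import Pool.Agent.MT100.Stmts

/-! VAL: the values of the translated fundamental matrix -/

set_option autoImplicit false

namespace Pool.Agent.Helper65MT100

open Pool.Agent.MT100 Matrix

/-- absolute convergence at `x` -/
def Ab (f : PowerSeries ℚ) (x : ℝ) : Prop :=
  Summable fun k => |((PowerSeries.coeff k f : ℚ) : ℝ)| * |x| ^ k

theorem Ab.summable {f : PowerSeries ℚ} {x : ℝ} (h : Ab f x) :
    Summable fun k => ((PowerSeries.coeff k f : ℚ) : ℝ) * x ^ k := by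
  refine Summable.of_norm ?_
  refine h.congr fun k => ?_
  rw [Real.norm_eq_abs, abs_mul, abs_pow]

theorem ab_zero (x : ℝ) : Ab 0 x := by
  unfold Ab
  simp

theorem ev_zero (x : ℝ) : ev 0 x = 0 := by
  unfold ev
  simp

theorem ab_one (x : ℝ) : Ab 1 x := by
  unfold Ab
  refine summable_of_ne_finset_zero (s := {0}) fun k hk => ?_
  rw [Finset.mem_singleton] at hk
  rw [PowerSeries.coeff_one, if_neg hk]
  simp

theorem ev_one (x : ℝ) : ev 1 x = 1 := by
  unfold ev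
  rw [tsum_eq_single 0]
  · simp
  · intro k hk
    rw [PowerSeries.coeff_one, if_neg hk]
    simp

theorem ab_smul (c : ℚ) {f : PowerSeries ℚ} {x : ℝ} (h : Ab f x) : Ab (c • f) x := by
  unfold Ab at h ⊢
  refine (h.mul_left |(c : ℝ)|).congr fun k => ?_
  rw [PowerSeries.coeff_smul, smul_eq_mul, Rat.cast_mul, abs_mul, mul_assoc]

theorem ev_smul (c : ℚ) (f : PowerSeries ℚ) (x : ℝ) : ev (c • f) x = (c : ℝ) * ev f x := by
  unfold ev
  rw [← tsum_mul_left]
  refine tsum_congr fun k => ?_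
  rw [PowerSeries.coeff_smul, smul_eq_mul, Rat.cast_mul, mul_assoc]

/-- the third part of EVA -/
def E3 : Prop := ∀ (f g : PowerSeries ℚ) (x : ℝ), Ab f x → Ab g x →
  Ab (f * g) x ∧ Ab (f + g) x ∧ ev (f + g) x = ev f x + ev g x ∧ ev (f * g) x = ev f x * ev g x

theorem pow_ev (hE : E3) {f : PowerSeries ℚ} {x : ℝ} (h : Ab f x) (k : ℕ) :
    Ab (f ^ k) x ∧ ev (f ^ k) x = ev f x ^ k := by
  induction k with
  | zero => exact ⟨by rw [pow_zero]; exact ab_one x, by rw [pow_zero, pow_zero, ev_one]⟩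
  | succ k ih =>
    have h1 := hE (f ^ k) f x ih.1 h
    rw [pow_succ, pow_succ]
    exact ⟨h1.1, by rw [h1.2.2.2, ih.2]⟩

theorem sum_ev (hE : E3) {ι : Type*} (s : Finset ι) (f : ι → PowerSeries ℚ) {x : ℝ}
    (h : ∀ i ∈ s, Ab (f i) x) :
    Ab (∑ i ∈ s, f i) x ∧ ev (∑ i ∈ s, f i) x = ∑ i ∈ s, ev (f i) x := by
  classical
  induction s using Finset.induction_on with
  | empty => exact ⟨by rw [Finset.sum_empty]; exact ab_zero x, by
      rw [Finset.sum_empty, Finset.sum_empty, ev_zero]⟩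
  | insert a s ha ih =>
    have h1 := ih fun i hi => h i (Finset.mem_insert_of_mem hi)
    have h2 := hE (f a) (∑ i ∈ s, f i) x (h a (Finset.mem_insert_self a s)) h1.1
    rw [Finset.sum_insert ha, Finset.sum_insert ha]
    exact ⟨h2.2.1, by rw [h2.2.2.1, h1.2]⟩

theorem mul_ev (hE : E3) {l m n : Type*} [Fintype m] (A : Matrix l m (PowerSeries ℚ))
    (B : Matrix m n (PowerSeries ℚ)) {x : ℝ} (hA : ∀ i j, Ab (A i j) x) (hB : ∀ i j, Ab (B i j) x) :
    (A * B).map (fun f => ev f x) = A.map (fun f => ev f x) * B.map (fun f => ev f x) := by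
  ext i j
  rw [Matrix.map_apply, Matrix.mul_apply, Matrix.mul_apply]
  rw [(sum_ev hE Finset.univ (fun k => A i k * B k j)
    (fun k _ => (hE _ _ x (hA i k) (hB k j)).1)).2]
  refine Finset.sum_congr rfl fun k _ => ?_
  rw [(hE _ _ x (hA i k) (hB k j)).2.2.2, Matrix.map_apply, Matrix.map_apply]

/-! ### the geometric series -/

theorem coeff_mob (κ k : ℕ) : PowerSeries.coeff (k + 1) (mob κ) = (κ : ℚ) ^ k := by
  unfold mob
  rw [PowerSeries.coeff_succ_X_mul, PowerSeries.coeff_mk]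

theorem coeff_mob_zero (κ : ℕ) : PowerSeries.coeff 0 (mob κ) = 0 := by
  unfold mob
  rw [PowerSeries.coeff_zero_X_mul]

theorem coeff_mob_nonneg (κ k : ℕ) : 0 ≤ PowerSeries.coeff k (mob κ) := by
  cases k with
  | zero => rw [coeff_mob_zero]
  | succ k => rw [coeff_mob]; positivity

theorem hasSum_mob (κ : ℕ) {x : ℝ} (hx : 0 ≤ x) (h1 : (κ : ℝ) * x < 1) :
    HasSum (fun k => ((PowerSeries.coeff k (mob κ) : ℚ) : ℝ) * x ^ k) (x / (1 - κ * x)) := by
  rw [← hasSum_nat_add_iff' 1]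
  have h2 := (hasSum_geometric_of_lt_one (mul_nonneg (Nat.cast_nonneg κ) hx) h1).mul_left x
  have h3 : (fun k : ℕ => x * ((κ : ℝ) * x) ^ k) =
      fun k : ℕ => ((PowerSeries.coeff (k + 1) (mob κ) : ℚ) : ℝ) * x ^ (k + 1) := by
    funext k
    rw [coeff_mob, mul_pow]
    push_cast
    ring
  rw [h3] at h2
  have h4 : x / (1 - (κ : ℝ) * x) - ∑ i ∈ Finset.range 1,
      ((PowerSeries.coeff i (mob κ) : ℚ) : ℝ) * x ^ i = x * (1 - (κ : ℝ) * x)⁻¹ := by
    rw [Finset.sum_range_one, coeff_mob_zero]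
    simp [div_eq_mul_inv]
  rw [h4]
  exact h2

theorem ab_of_nonneg {f : PowerSeries ℚ} (hf : ∀ k, 0 ≤ PowerSeries.coeff k f) {x : ℝ}
    (hx : 0 ≤ x) (h : Summable fun k => ((PowerSeries.coeff k f : ℚ) : ℝ) * x ^ k) : Ab f x := by
  unfold Ab
  refine h.congr fun k => ?_
  have h1 : (0 : ℝ) ≤ ((PowerSeries.coeff k f : ℚ) : ℝ) := by exact_mod_cast hf k
  rw [abs_of_nonneg h1, abs_of_nonneg hx]

theorem mob_ev (κ : ℕ) {x : ℝ} (hx : 0 ≤ x) (h1 : (κ : ℝ) * x < 1) :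
    Ab (mob κ) x ∧ ev (mob κ) x = x / (1 - κ * x) :=
  ⟨ab_of_nonneg (coeff_mob_nonneg κ) hx (hasSum_mob κ hx h1).summable, (hasSum_mob κ hx h1).tsum_eq⟩

theorem coeff_mob_pow_nonneg (κ k n : ℕ) : 0 ≤ PowerSeries.coeff n ((mob κ) ^ k) := by
  induction k generalizing n with
  | zero =>
    rw [pow_zero, PowerSeries.coeff_one]
    split_ifs <;> norm_num
  | succ k ih =>
    rw [pow_succ, PowerSeries.coeff_mul]
    exact Finset.sum_nonneg fun p _ => mul_nonneg (ih _) (coeff_mob_nonneg κ _)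

theorem coeff_mob_pow_zero (κ : ℕ) {k n : ℕ} (h : n < k) :
    PowerSeries.coeff n ((mob κ) ^ k) = 0 := by
  unfold mob
  rw [mul_pow, PowerSeries.coeff_X_pow_mul', if_neg (by omega)]

theorem hasSubst_mob (κ : ℕ) : PowerSeries.HasSubst (mob κ) :=
  PowerSeries.HasSubst.of_constantCoeff_zero' (by
    rw [← PowerSeries.coeff_zero_eq_constantCoeff_apply, coeff_mob_zero])

theorem coeff_subst_mob (κ : ℕ) (f : PowerSeries ℚ) (n : ℕ) :
    PowerSeries.coeff n (f.subst (mob κ)) =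
      ∑ k ∈ Finset.range (n + 1), PowerSeries.coeff k f * PowerSeries.coeff n ((mob κ) ^ k) := by
  rw [PowerSeries.coeff_subst' (hasSubst_mob κ)]
  rw [finsum_eq_sum_of_support_subset (s := Finset.range (n + 1))]
  · refine Finset.sum_congr rfl fun k _ => ?_
    rw [smul_eq_mul]
  · intro k hk
    rw [Function.mem_support] at hk
    rw [Finset.coe_range, Set.mem_Iio]
    by_contra h
    apply hk
    rw [coeff_mob_pow_zero κ (by omega), smul_zero]

theorem subst_ev (hE : E3) (κ : ℕ) {f : PowerSeries ℚ} {x : ℝ} (hx : 0 ≤ x)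
    (h1 : (κ : ℝ) * x < 1) (hf : Ab f (x / (1 - κ * x))) :
    Ab (f.subst (mob κ)) x ∧ ev (f.subst (mob κ)) x = ev f (x / (1 - κ * x)) := by
  have hy : 0 ≤ x / (1 - κ * x) := div_nonneg hx (by linarith)
  have hm := mob_ev κ hx h1
  have hpow : ∀ k, Ab ((mob κ) ^ k) x ∧ ev ((mob κ) ^ k) x = (x / (1 - κ * x)) ^ k := by
    intro k
    have := pow_ev hE hm.1 k
    rw [hm.2] at this
    exact this
  have hS : ∀ k, HasSum (fun n => ((PowerSeries.coeff n ((mob κ) ^ k) : ℚ) : ℝ) * x ^ n)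
      ((x / (1 - κ * x)) ^ k) := by
    intro k
    have h2 := (hpow k).1.summable.hasSum
    have h3 := (hpow k).2
    unfold ev at h3
    rw [h3] at h2
    exact h2
  have hnn : ∀ k n, (0 : ℝ) ≤ ((PowerSeries.coeff n ((mob κ) ^ k) : ℚ) : ℝ) * x ^ n := by
    intro k n
    have : (0 : ℝ) ≤ ((PowerSeries.coeff n ((mob κ) ^ k) : ℚ) : ℝ) := by
      exact_mod_cast coeff_mob_pow_nonneg κ k n
    positivity
  have hsumm : Summable (fun p : ℕ × ℕ => |((PowerSeries.coeff p.1 f : ℚ) : ℝ)| *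
      (((PowerSeries.coeff p.2 ((mob κ) ^ p.1) : ℚ) : ℝ) * x ^ p.2)) := by
    rw [summable_prod_of_nonneg (fun p => mul_nonneg (abs_nonneg _) (hnn p.1 p.2))]
    constructor
    · intro k
      show Summable fun n => |((PowerSeries.coeff k f : ℚ) : ℝ)| *
        (((PowerSeries.coeff n ((mob κ) ^ k) : ℚ) : ℝ) * x ^ n)
      exact (hS k).summable.mul_left _
    · refine hf.congr fun k => ?_
      show |((PowerSeries.coeff k f : ℚ) : ℝ)| * |x / (1 - κ * x)| ^ k =
        ∑' n, |((PowerSeries.coeff k f : ℚ) : ℝ)| *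
          (((PowerSeries.coeff n ((mob κ) ^ k) : ℚ) : ℝ) * x ^ n)
      rw [((hS k).mul_left _).tsum_eq, abs_of_nonneg hy]
  have hsumm2 : Summable (fun p : ℕ × ℕ => ((PowerSeries.coeff p.1 f : ℚ) : ℝ) *
      (((PowerSeries.coeff p.2 ((mob κ) ^ p.1) : ℚ) : ℝ) * x ^ p.2)) := by
    refine Summable.of_norm (hsumm.congr fun p => ?_)
    rw [Real.norm_eq_abs, abs_mul, abs_of_nonneg (hnn p.1 p.2)]
  have hfin : ∀ (g : ℕ → ℝ) (n : ℕ),
      HasSum (fun k => g k * (((PowerSeries.coeff n ((mob κ) ^ k) : ℚ) : ℝ) * x ^ n))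
        (∑ k ∈ Finset.range (n + 1),
          g k * (((PowerSeries.coeff n ((mob κ) ^ k) : ℚ) : ℝ) * x ^ n)) := by
    intro g n
    refine hasSum_sum_of_ne_finset_zero fun k hk => ?_
    rw [Finset.mem_range, not_lt] at hk
    rw [coeff_mob_pow_zero κ (by omega)]
    simp
  have hswap := (Equiv.prodComm ℕ ℕ).summable_iff.mpr hsumm
  have hswap2 := (Equiv.prodComm ℕ ℕ).summable_iff.mpr hsumm2
  constructor
  · have h2 : Summable fun n => ∑' k, |((PowerSeries.coeff k f : ℚ) : ℝ)| *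
        (((PowerSeries.coeff n ((mob κ) ^ k) : ℚ) : ℝ) * x ^ n) := hswap.prod
    unfold Ab
    refine Summable.of_nonneg_of_le (fun n => by positivity) (fun n => ?_) h2
    rw [(hfin (fun k => |((PowerSeries.coeff k f : ℚ) : ℝ)|) n).tsum_eq, coeff_subst_mob,
      abs_of_nonneg hx]
    push_cast
    rw [← abs_of_nonneg (pow_nonneg hx n), ← abs_mul, Finset.sum_mul]
    refine (Finset.abs_sum_le_sum_abs _ _).trans (Finset.sum_le_sum fun k _ => ?_)
    rw [mul_assoc, abs_mul, abs_mul]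
    rw [abs_of_nonneg (by exact_mod_cast coeff_mob_pow_nonneg κ k n :
      (0 : ℝ) ≤ ((PowerSeries.coeff n ((mob κ) ^ k) : ℚ) : ℝ))]
  · unfold ev
    have h2 : ∀ n, ((PowerSeries.coeff n (f.subst (mob κ)) : ℚ) : ℝ) * x ^ n =
        ∑' k, ((PowerSeries.coeff k f : ℚ) : ℝ) *
          (((PowerSeries.coeff n ((mob κ) ^ k) : ℚ) : ℝ) * x ^ n) := by
      intro n
      rw [(hfin (fun k => ((PowerSeries.coeff k f : ℚ) : ℝ)) n).tsum_eq, coeff_subst_mob]
      push_cast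
      rw [Finset.sum_mul]
      refine Finset.sum_congr rfl fun k _ => ?_
      ring
    have h3 : ∀ k, ((PowerSeries.coeff k f : ℚ) : ℝ) * (x / (1 - κ * x)) ^ k =
        ∑' n, ((PowerSeries.coeff k f : ℚ) : ℝ) *
          (((PowerSeries.coeff n ((mob κ) ^ k) : ℚ) : ℝ) * x ^ n) := by
      intro k
      rw [((hS k).mul_left _).tsum_eq]
    rw [tsum_congr h2, tsum_congr h3]
    have h5 : Summable (Function.uncurry fun (n k : ℕ) =>
        ((PowerSeries.coeff k f : ℚ) : ℝ) *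
          (((PowerSeries.coeff n ((mob κ) ^ k) : ℚ) : ℝ) * x ^ n)) := hswap2
    exact h5.tsum_comm.symm

/-! ### the logarithm -/

theorem coeff_lgs (κ k : ℕ) : PowerSeries.coeff k (lgs κ) = (κ : ℚ) ^ k / (k : ℚ) := by
  unfold lgs
  rw [PowerSeries.coeff_mk]

theorem lgs_ev (κ : ℕ) {x : ℝ} (hx : 0 ≤ x) (h1 : (κ : ℝ) * x < 1) :
    Ab (lgs κ) x ∧ ev (lgs κ) x = -Real.log (1 - κ * x) := by
  have hk : 0 ≤ (κ : ℝ) * x := mul_nonneg (Nat.cast_nonneg κ) hx
  have h2 := Real.hasSum_pow_div_log_of_abs_lt_one (x := (κ : ℝ) * x)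
    (by rw [abs_of_nonneg hk]; exact h1)
  have h3 : HasSum (fun k => ((PowerSeries.coeff k (lgs κ) : ℚ) : ℝ) * x ^ k)
      (-Real.log (1 - κ * x)) := by
    rw [← hasSum_nat_add_iff' 1]
    have h4 : (fun n : ℕ => ((κ : ℝ) * x) ^ (n + 1) / ((n : ℝ) + 1)) =
        fun n : ℕ => ((PowerSeries.coeff (n + 1) (lgs κ) : ℚ) : ℝ) * x ^ (n + 1) := by
      funext n
      rw [coeff_lgs, mul_pow]
      push_cast
      ring
    rw [h4] at h2
    have h5 : -Real.log (1 - (κ : ℝ) * x) - ∑ i ∈ Finset.range 1,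
        ((PowerSeries.coeff i (lgs κ) : ℚ) : ℝ) * x ^ i = -Real.log (1 - (κ : ℝ) * x) := by
      rw [Finset.sum_range_one, coeff_lgs]
      simp
    rw [h5]
    exact h2
  exact ⟨ab_of_nonneg (fun k => by rw [coeff_lgs]; positivity) hx h3.summable, h3.tsum_eq⟩

/-! ### the exponential of the shift -/

theorem en_ev (hE : E3) (r : ℕ) {f : PowerSeries ℚ} {x : ℝ} (hf : Ab f x) :
    (∀ l i, Ab (en r f l i) x) ∧ (en r f).map (fun g => ev g x) = en r (ev f x) := by
  constructor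
  · intro l i
    unfold en
    split_ifs
    · exact ab_smul _ (pow_ev hE hf _).1
    · exact ab_zero x
  · ext l i
    rw [Matrix.map_apply]
    unfold en
    split_ifs with h
    · rw [ev_smul, (pow_ev hE hf _).2, Rat.smul_def]
    · exact ev_zero x

theorem en_add (r : ℕ) (x y : ℝ) : en r (x + y) = en r x * en r y := by
  ext l i
  rw [Matrix.mul_apply]
  by_cases h : l ≤ i
  · obtain ⟨m, hm⟩ : ∃ m, (i : ℕ) = (l : ℕ) + m := ⟨(i : ℕ) - l, by
      have : (l : ℕ) ≤ i := h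
      omega⟩
    have hL : en r (x + y) l i = ((m.factorial : ℝ))⁻¹ * (x + y) ^ m := by
      unfold en
      rw [if_pos h, Rat.smul_def, hm, Nat.add_sub_cancel_left]
      push_cast
      ring
    rw [hL, add_pow]
    have hR : ∑ j, en r x l j * en r y j i = ∑ j ∈ Finset.univ.filter (fun j : Fin r =>
        l ≤ j ∧ j ≤ i), (((((j : ℕ) - (l : ℕ)).factorial : ℝ)⁻¹) * x ^ ((j : ℕ) - (l : ℕ))) *
          (((((i : ℕ) - (j : ℕ)).factorial : ℝ)⁻¹) * y ^ ((i : ℕ) - (j : ℕ))) := by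
      rw [Finset.sum_filter]
      refine Finset.sum_congr rfl fun j _ => ?_
      unfold en
      by_cases h1 : l ≤ j
      · by_cases h2 : j ≤ i
        · rw [if_pos h1, if_pos h2, if_pos ⟨h1, h2⟩, Rat.smul_def, Rat.smul_def]
          push_cast
          ring
        · rw [if_neg h2, if_neg (fun hh : l ≤ j ∧ j ≤ i => h2 hh.2), mul_zero]
      · rw [if_neg h1, if_neg (fun hh : l ≤ j ∧ j ≤ i => h1 hh.1), zero_mul]
    rw [hR, Finset.mul_sum]
    symm
    refine Finset.sum_bij' (i := fun (j : Fin r) _ => (j : ℕ) - (l : ℕ))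
      (j := fun (t : ℕ) (ht : t ∈ Finset.range (m + 1)) => (⟨(l : ℕ) + t, by
        have h1 := Finset.mem_range.mp ht
        have h2 := i.2
        omega⟩ : Fin r)) ?_ ?_ ?_ ?_ ?_
    · intro j hj
      rw [Finset.mem_filter] at hj
      have h1 : (l : ℕ) ≤ j := hj.2.1
      have h2 : (j : ℕ) ≤ i := hj.2.2
      rw [Finset.mem_range]
      omega
    · intro t ht
      rw [Finset.mem_range] at ht
      rw [Finset.mem_filter]
      refine ⟨Finset.mem_univ _, ?_, ?_⟩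
      · show (l : ℕ) ≤ (l : ℕ) + t
        omega
      · show (l : ℕ) + t ≤ (i : ℕ)
        omega
    · intro j hj
      rw [Finset.mem_filter] at hj
      have h1 : (l : ℕ) ≤ j := hj.2.1
      apply Fin.ext
      show (l : ℕ) + ((j : ℕ) - l) = j
      omega
    · intro t ht
      show (l : ℕ) + t - l = t
      omega
    · intro j hj
      rw [Finset.mem_filter] at hj
      have h1 : (l : ℕ) ≤ j := hj.2.1
      have h2 : (j : ℕ) ≤ i := hj.2.2
      obtain ⟨t, ht⟩ : ∃ t, (j : ℕ) = (l : ℕ) + t := ⟨(j : ℕ) - l, by omega⟩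
      have h3 : (i : ℕ) - j = m - t := by omega
      have h4 : t ≤ m := by omega
      rw [h3, ht, Nat.add_sub_cancel_left]
      have h5 : ((m.choose t : ℕ) : ℝ) = (m.factorial : ℝ) /
          ((t.factorial : ℝ) * ((m - t).factorial : ℝ)) := Nat.cast_choose ℝ h4
      rw [h5]
      have h6 : (m.factorial : ℝ) ≠ 0 := by exact_mod_cast m.factorial_ne_zero
      have h7 : (t.factorial : ℝ) ≠ 0 := by exact_mod_cast t.factorial_ne_zero
      have h8 : ((m - t).factorial : ℝ) ≠ 0 := by exact_mod_cast (m - t).factorial_ne_zero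
      field_simp
  · have hL : en r (x + y) l i = 0 := by
      unfold en
      rw [if_neg h]
    rw [hL]
    symm
    refine Finset.sum_eq_zero fun j _ => ?_
    unfold en
    by_cases h1 : l ≤ j
    · rw [if_neg (fun h2 : j ≤ i => h (h1.trans h2)), mul_zero]
    · rw [if_neg h1, zero_mul]

/-! ### the hypergeometric series -/

theorem ab_hyp (hH : HgrStmt) (D : Dat) {x : ℝ} (hx : 0 < x) (h1 : (D.lam : ℝ) * x < 1)
    (a l : Fin D.r) : Ab (Hyp D a l) x := by
  obtain ⟨C, hC⟩ := hH D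
  have hlam : (0 : ℝ) < (D.lam : ℝ) := by exact_mod_cast D.lam_pos
  have hr : 0 < (D.lam : ℝ) * x := mul_pos hlam hx
  have h2 : Summable fun n : ℕ => (n : ℝ) ^ C * ((D.lam : ℝ) * x) ^ n :=
    summable_pow_mul_geometric_of_norm_lt_one C (by
      rw [Real.norm_eq_abs, abs_of_pos hr]; exact h1)
  have h3 : Summable fun n : ℕ => ((n : ℝ) + 1) ^ C * ((D.lam : ℝ) * x) ^ (n + 1) := by
    have := (summable_nat_add_iff 1).mpr h2
    refine this.congr fun n => ?_
    push_cast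
    ring
  have h4 := h3.mul_left ((C : ℝ) * ((D.lam : ℝ) * x)⁻¹)
  unfold Ab
  refine Summable.of_nonneg_of_le (fun n => by positivity) (fun n => ?_) h4
  have h5 : |((PowerSeries.coeff n (Hyp D a l) : ℚ) : ℝ)| ≤
      (C : ℝ) * ((n : ℝ) + 1) ^ C * (D.lam : ℝ) ^ n := by
    have := hC a l n
    have h6 : ((|PowerSeries.coeff n (Hyp D a l)| : ℚ) : ℝ) ≤
        (((C : ℚ) * ((n : ℚ) + 1) ^ C * D.lam ^ n : ℚ) : ℝ) := by exact_mod_cast this
    push_cast at h6
    exact h6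
  rw [abs_of_pos hx]
  calc |((PowerSeries.coeff n (Hyp D a l) : ℚ) : ℝ)| * x ^ n
      ≤ ((C : ℝ) * ((n : ℝ) + 1) ^ C * (D.lam : ℝ) ^ n) * x ^ n :=
        mul_le_mul_of_nonneg_right h5 (pow_nonneg hx.le n)
    _ = (C : ℝ) * ((D.lam : ℝ) * x)⁻¹ * (((n : ℝ) + 1) ^ C * ((D.lam : ℝ) * x) ^ (n + 1)) := by
        rw [pow_succ, mul_pow]
        field_simp

/-- VAL -/
theorem val (hEva : EvaStmt) (_hGcl : GclStmt) (hHgr : HgrStmt) : ValStmt := by
  intro D κ
  have hE : E3 := fun f g x hf hg => by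
    have := hEva.2.2.1 f g x hf hg
    exact this
  have hlam : (0 : ℝ) < (D.lam : ℝ) := by exact_mod_cast D.lam_pos
  filter_upwards [Filter.eventually_gt_atTop ((D.lam : ℝ) + κ + 1)] with w hw
  have hκ : (0 : ℝ) ≤ (κ : ℝ) := Nat.cast_nonneg κ
  have hw0 : 0 < w := by linarith
  have hwk : 0 < w - κ := by linarith
  have hx : 0 < w⁻¹ := inv_pos.mpr hw0
  have h1 : (κ : ℝ) * w⁻¹ < 1 := by
    rw [← div_eq_mul_inv, div_lt_one hw0]
    linarith
  have hy : w⁻¹ / (1 - κ * w⁻¹) = (w - κ)⁻¹ := by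
    have h2 : 1 - (κ : ℝ) * w⁻¹ = (w - κ) * w⁻¹ := by
      rw [sub_mul, mul_inv_cancel₀ hw0.ne']
    rw [h2]
    field_simp
  have h3 : (D.lam : ℝ) * (w - κ)⁻¹ < 1 := by
    rw [← div_eq_mul_inv, div_lt_one hwk]
    linarith
  have hab : ∀ a l, Ab (Hyp D a l) (w⁻¹ / (1 - κ * w⁻¹)) := by
    intro a l
    rw [hy]
    exact ab_hyp hHgr D (inv_pos.mpr hwk) h3 a l
  have hsub := fun a l => subst_ev hE κ hx.le h1 (hab a l)
  have hlg := lgs_ev κ hx.le h1
  have hen := en_ev hE D.r hlg.1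
  have hT : (Tr D κ).map (fun f => ev f w⁻¹) =
      (Hyp D).map (fun f => ev f (w - κ)⁻¹) * en D.r (-Real.log (1 - κ * w⁻¹)) := by
    unfold Tr
    rw [mul_ev hE _ _ (fun i j => by rw [Matrix.map_apply]; exact (hsub i j).1) hen.1, hen.2,
      hlg.2]
    congr 1
    ext i j
    rw [Matrix.map_apply, Matrix.map_apply, Matrix.map_apply, (hsub i j).2, hy]
  rw [hT, Matrix.mul_assoc, ← en_add]
  unfold W
  congr 2
  have h4 : 1 - (κ : ℝ) * w⁻¹ = (w - κ) * w⁻¹ := by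
    rw [sub_mul, mul_inv_cancel₀ hw0.ne']
  rw [h4, Real.log_mul hwk.ne' hx.ne', Real.log_inv]
  ring

end Pool.Agent.Helper65MT100
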