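import Pool.Agent.MT100.StmtsP
import Pool.Agent.Helper47_MT.Eva
import Pool.Agent.Helper43_Billiard.Comp
import Pool.Agent.Helper65_MT100.Val

/-! VAG: the values of the pullback of a fundamental matrix -/

set_option autoImplicit false

namespace Pool.Agent.Helper65MT100

open Pool.Agent.MT100 Matrix Helper43.Billiard

/-! ### convergent power series -/

/-- real coefficients -/
noncomputable def toR (f : PowerSeries ℚ) : PowerSeries ℝ := PowerSeries.map (algebraMap ℚ ℝ) f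

theorem coeff_toR (f : PowerSeries ℚ) (k : ℕ) :
    PowerSeries.coeff k (toR f) = ((PowerSeries.coeff k f : ℚ) : ℝ) := by
  unfold toR
  rw [PowerSeries.coeff_map]
  rfl

theorem toR_mul (f g : PowerSeries ℚ) : toR (f * g) = toR f * toR g := map_mul _ _ _
theorem toR_pow (f : PowerSeries ℚ) (k : ℕ) : toR (f ^ k) = toR f ^ k := map_pow _ _ _
theorem toR_one : toR 1 = 1 := map_one _
theorem toR_sub (f g : PowerSeries ℚ) : toR (f - g) = toR f - toR g := map_sub _ _ _
theorem toR_neg (f : PowerSeries ℚ) : toR (-f) = -toR f := map_neg _ _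

/-- a power series with positive radius of convergence -/
def Cv (f : PowerSeries ℚ) : Prop := ∃ ρ M : ℝ, 0 < ρ ∧ Bd ρ (toR f) M

theorem bd_ab {f : PowerSeries ℚ} {ρ M x : ℝ} (h : Bd ρ (toR f) M) (hx : |x| ≤ ρ) : Ab f x := by
  have h0 : 0 ≤ ρ := (abs_nonneg x).trans hx
  have h1 : Summable fun m => |PowerSeries.coeff m (toR f)| * ρ ^ m :=
    summable_of_sum_range_le (fun _ => mul_nonneg (abs_nonneg _) (pow_nonneg h0 _)) h
  unfold Ab
  refine Summable.of_nonneg_of_le (fun m => by positivity) (fun m => ?_) h1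
  rw [coeff_toR]
  exact mul_le_mul_of_nonneg_left (pow_le_pow_left₀ (abs_nonneg x) hx m) (abs_nonneg _)

theorem ab_bd {f : PowerSeries ℚ} {x : ℝ} (h : Ab f x) : ∃ M, Bd |x| (toR f) M := by
  refine ⟨∑' k, |((PowerSeries.coeff k f : ℚ) : ℝ)| * |x| ^ k, fun N => ?_⟩
  have h1 := h.sum_le_tsum (Finset.range N) (fun k _ => by positivity)
  refine le_trans (le_of_eq ?_) h1
  refine Finset.sum_congr rfl fun k _ => ?_
  rw [coeff_toR]

theorem Cv.ab {f : PowerSeries ℚ} (h : Cv f) : ∃ δ : ℝ, 0 < δ ∧ ∀ x, |x| ≤ δ → Ab f x := by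
  obtain ⟨ρ, M, hρ, h⟩ := h
  exact ⟨ρ, hρ, fun x hx => bd_ab h hx⟩

theorem Cv.mul {f g : PowerSeries ℚ} (hf : Cv f) (hg : Cv g) : Cv (f * g) := by
  obtain ⟨ρ, M, hρ, hf⟩ := hf
  obtain ⟨ρ', M', hρ', hg⟩ := hg
  have h0 : 0 < min ρ ρ' := lt_min hρ hρ'
  refine ⟨min ρ ρ', M * M', h0, ?_⟩
  rw [toR_mul]
  exact (hf.mono_radius h0.le (min_le_left _ _)).mul (hg.mono_radius h0.le (min_le_right _ _)) h0.le

theorem Cv.neg {f : PowerSeries ℚ} (hf : Cv f) : Cv (-f) := by
  obtain ⟨ρ, M, hρ, hf⟩ := hf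
  refine ⟨ρ, M, hρ, ?_⟩
  rw [toR_neg]
  exact hf.neg

theorem cv_gtype {f : PowerSeries ℚ} (hf : GType f) : Cv f := by
  obtain ⟨δ, hδ, h⟩ := MT100.H47.eva1 f hf
  have h1 : Ab f (δ / 2) := h (δ / 2) (by rw [abs_of_pos (by linarith)]; linarith)
  obtain ⟨M, hM⟩ := ab_bd h1
  exact ⟨|δ / 2|, M, by positivity, hM⟩

theorem cv_poly (p : Polynomial ℚ) : Cv (p : PowerSeries ℚ) := by
  refine ⟨1, _, one_pos, Bd.of_forall_coeff_le (M := ∑ i ∈ Finset.range (p.natDegree + 1),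
    |((p.coeff i : ℚ) : ℝ)|) (p.natDegree + 1) zero_le_one ?_ ?_⟩
  · intro m hm
    rw [coeff_toR, Polynomial.coeff_coe, Polynomial.coeff_eq_zero_of_natDegree_lt (by omega),
      Rat.cast_zero]
  · intro m hm
    rw [coeff_toR, Polynomial.coeff_coe, one_pow, mul_one]
    exact Finset.single_le_sum (f := fun i => |((p.coeff i : ℚ) : ℝ)|)
      (fun i _ => abs_nonneg _) (Finset.mem_range.mpr hm)

theorem Cv.inv {f : PowerSeries ℚ} (hf : Cv f) (h0 : PowerSeries.constantCoeff f ≠ 0) :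
    Cv f⁻¹ := by
  obtain ⟨ρ, M, hρ, hf⟩ := hf
  set a : ℝ := ((PowerSeries.constantCoeff f : ℚ) : ℝ) with ha
  have ha0 : a ≠ 0 := by
    rw [ha]
    exact_mod_cast h0
  set e : PowerSeries ℝ := 1 - a⁻¹ • toR f with he
  have he1 : Bd ρ e (1 + |a⁻¹| * M) := (Bd.one hρ.le).sub (hf.smul a⁻¹) hρ.le
  have hX : (PowerSeries.X : PowerSeries ℝ) ^ 1 ∣ e := by
    rw [PowerSeries.X_pow_dvd_iff]
    intro m hm
    have hm0 : m = 0 := by omega
    rw [hm0, he, map_sub, PowerSeries.coeff_smul, coeff_toR,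
      PowerSeries.coeff_zero_eq_constantCoeff_apply, PowerSeries.coeff_zero_eq_constantCoeff_apply,
      map_one, smul_eq_mul, ← ha, inv_mul_cancel₀ ha0, sub_self]
  have hM : 0 ≤ 1 + |a⁻¹| * M := he1.nonneg
  set B : ℝ := 1 + |a⁻¹| * M with hB
  set q : ℝ := 1 / (2 * (B + 1)) with hq
  have hq0 : 0 < q := by positivity
  have hq1 : q ≤ 1 := by
    rw [hq, div_le_one (by positivity)]
    linarith
  have h1 := he1.shrink hρ.le hq0.le hq1 hX
  have hqB : q ^ 1 * B < 1 := by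
    rw [pow_one, hq, div_mul_eq_mul_div, one_mul, div_lt_one (by positivity)]
    linarith
  have hmul : (1 - e) * (a • toR f⁻¹) = 1 := by
    rw [he, sub_sub_cancel, smul_mul_smul_comm, inv_mul_cancel₀ ha0, one_smul, ← toR_mul,
      PowerSeries.mul_inv_cancel _ h0, toR_one]
  have h2 := Bd.inv_of_mul_eq_one (mul_pos hq0 hρ).le h1 hqB hmul
  refine ⟨q * ρ, |a⁻¹| * (1 / (1 - q ^ 1 * B)), mul_pos hq0 hρ, ?_⟩
  have h3 := h2.smul a⁻¹
  rw [smul_smul, inv_mul_cancel₀ ha0, one_smul] at h3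
  exact h3

/-! ### composition -/

theorem X_dvd_toR {g : PowerSeries ℚ} (h0 : PowerSeries.constantCoeff g = 0) :
    (PowerSeries.X : PowerSeries ℝ) ∣ toR g := by
  rw [PowerSeries.X_dvd_iff, ← PowerSeries.coeff_zero_eq_constantCoeff_apply, coeff_toR,
    PowerSeries.coeff_zero_eq_constantCoeff_apply, h0, Rat.cast_zero]

theorem coeff_pow_zero {g : PowerSeries ℚ} (h0 : PowerSeries.constantCoeff g = 0) {k n : ℕ}
    (h : n < k) : PowerSeries.coeff n (g ^ k) = 0 := by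
  have h1 : (PowerSeries.X : PowerSeries ℚ) ∣ g := PowerSeries.X_dvd_iff.mpr h0
  exact PowerSeries.X_pow_dvd_iff.mp (pow_dvd_pow_of_dvd h1 k) n h

theorem coeff_subst_gen {g : PowerSeries ℚ} (h0 : PowerSeries.constantCoeff g = 0)
    (f : PowerSeries ℚ) (n : ℕ) :
    PowerSeries.coeff n (f.subst g) =
      ∑ k ∈ Finset.range (n + 1), PowerSeries.coeff k f * PowerSeries.coeff n (g ^ k) := by
  rw [PowerSeries.coeff_subst' (PowerSeries.HasSubst.of_constantCoeff_zero' h0)]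
  rw [finsum_eq_sum_of_support_subset (s := Finset.range (n + 1))]
  · refine Finset.sum_congr rfl fun k _ => ?_
    rw [smul_eq_mul]
  · intro k hk
    rw [Function.mem_support] at hk
    rw [Finset.coe_range, Set.mem_Iio]
    by_contra h
    apply hk
    rw [coeff_pow_zero h0 (by omega), smul_zero]

theorem toR_subst {g : PowerSeries ℚ} (h0 : PowerSeries.constantCoeff g = 0)
    (f : PowerSeries ℚ) : toR (f.subst g) = Helper43.Billiard.comp (toR f) (toR g) := by
  ext n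
  rw [coeff_toR, coeff_subst_gen h0]
  unfold Helper43.Billiard.comp
  rw [PowerSeries.coeff_mk, Rat.cast_sum]
  refine Finset.sum_congr rfl fun k _ => ?_
  rw [Rat.cast_mul, coeff_toR, ← toR_pow, coeff_toR]

theorem pow_norm_le {g : PowerSeries ℚ} {ρ r x : ℝ} (hg : Bd ρ (toR g) r) (hx : |x| ≤ ρ) (i : ℕ) :
    ∑' m, |((PowerSeries.coeff m (g ^ i) : ℚ) : ℝ)| * |x| ^ m ≤ r ^ i := by
  have h0 : 0 ≤ ρ := (abs_nonneg x).trans hx
  have h1 : Bd ρ (toR (g ^ i)) (r ^ i) := by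
    rw [toR_pow]
    exact hg.pow h0 i
  have h2 := h1.mono_radius (abs_nonneg x) hx
  refine Real.tsum_le_of_sum_range_le (fun m => by positivity) fun n => ?_
  refine le_trans (le_of_eq ?_) (h2 n)
  refine Finset.sum_congr rfl fun k _ => ?_
  rw [coeff_toR]

theorem comp_ev {f g : PowerSeries ℚ} {ρ r M x : ℝ} (hg : Bd ρ (toR g) r)
    (h0 : PowerSeries.constantCoeff g = 0) (hf : Bd r (toR f) M) (hx : |x| ≤ ρ) :
    Ab (f.subst g) x ∧ ev (f.subst g) x = ev f (ev g x) := by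
  have hρ : 0 ≤ ρ := (abs_nonneg x).trans hx
  have hr : 0 ≤ r := hg.nonneg
  constructor
  · refine bd_ab (ρ := ρ) (M := M) ?_ hx
    rw [toR_subst h0]
    exact Bd.comp hρ (X_dvd_toR h0) hg hf
  have hgx : Ab g x := bd_ab hg hx
  have hpow := fun i => pow_ev (fun f g x hf hg => MT100.H47.eva3 f g x hf hg) hgx i
  set F : ℕ → ℕ → ℝ := fun i m =>
    ((PowerSeries.coeff i f : ℚ) : ℝ) * (((PowerSeries.coeff m (g ^ i) : ℚ) : ℝ) * x ^ m) with hF
  have hsum : Summable (Function.uncurry F) := by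
    refine Summable.of_norm ?_
    rw [summable_prod_of_nonneg (fun _ => norm_nonneg _)]
    have e : ∀ i m, ‖Function.uncurry F (i, m)‖ = |((PowerSeries.coeff i f : ℚ) : ℝ)| *
        (|((PowerSeries.coeff m (g ^ i) : ℚ) : ℝ)| * |x| ^ m) := by
      intro i m
      simp only [Function.uncurry, hF, Real.norm_eq_abs, abs_mul, abs_pow]
    constructor
    · intro i
      simp only [e]
      exact (hpow i).1.mul_left _
    · simp only [e, tsum_mul_left]
      have h1 : Summable fun i => |((PowerSeries.coeff i f : ℚ) : ℝ)| * r ^ i := by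
        have := summable_of_sum_range_le (fun _ => mul_nonneg (abs_nonneg _) (pow_nonneg hr _)) hf
        refine this.congr fun i => ?_
        rw [coeff_toR]
      refine Summable.of_nonneg_of_le (fun i => ?_) (fun i => ?_) h1
      · exact mul_nonneg (abs_nonneg _) (tsum_nonneg fun m => by positivity)
      · exact mul_le_mul_of_nonneg_left (pow_norm_le hg hx i) (abs_nonneg _)
  have h1 : ∀ m, ((PowerSeries.coeff m (f.subst g) : ℚ) : ℝ) * x ^ m = ∑' i, F i m := by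
    intro m
    rw [coeff_subst_gen h0, tsum_eq_sum (s := Finset.range (m + 1)), Rat.cast_sum, Finset.sum_mul]
    · refine Finset.sum_congr rfl fun i _ => ?_
      rw [hF, Rat.cast_mul]
      ring
    · intro i hi
      rw [Finset.mem_range, not_lt] at hi
      simp only [hF]
      rw [coeff_pow_zero h0 (by omega)]
      simp
  have h2 : ∀ i, ((PowerSeries.coeff i f : ℚ) : ℝ) * ev g x ^ i = ∑' m, F i m := by
    intro i
    simp only [hF]
    rw [tsum_mul_left, ← (hpow i).2, ev]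
  rw [ev, ev]
  simp only [h1, h2]
  exact hsum.tsum_comm

theorem subst_cv {f g : PowerSeries ℚ} (hf : Cv f) (hg : Cv g)
    (h0 : PowerSeries.constantCoeff g = 0) : ∃ δ : ℝ, 0 < δ ∧ ∀ x, |x| ≤ δ →
      Ab (f.subst g) x ∧ ev (f.subst g) x = ev f (ev g x) := by
  obtain ⟨r, M, hr, hf⟩ := hf
  obtain ⟨ρ, M', hρ, hg⟩ := hg
  have hM' : 0 ≤ M' := hg.nonneg
  set q : ℝ := min 1 (r / (M' + 1)) with hq
  have hq0 : 0 < q := lt_min one_pos (by positivity)
  have hX : (PowerSeries.X : PowerSeries ℝ) ^ 1 ∣ toR g := by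
    rw [pow_one]
    exact X_dvd_toR h0
  have h1 := hg.shrink hρ.le hq0.le (min_le_left _ _) hX
  have h2 : q ^ 1 * M' ≤ r := by
    rw [pow_one]
    calc q * M' ≤ r / (M' + 1) * M' := mul_le_mul_of_nonneg_right (min_le_right _ _) hM'
      _ ≤ r := by
        rw [div_mul_eq_mul_div, div_le_iff₀ (by positivity)]
        nlinarith
  exact ⟨q * ρ, mul_pos hq0 hρ, fun x hx => comp_ev (h1.mono h2) h0 hf hx⟩

/-! ### the derivative -/

theorem toR_dv (f : PowerSeries ℚ) : toR (dv f) = PowerSeries.derivative ℝ (toR f) := by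
  ext n
  rw [coeff_toR, PowerSeries.coeff_derivative, PowerSeries.coeff_derivative, coeff_toR]
  push_cast
  ring

theorem hasDeriv_ev {f : PowerSeries ℚ} {ρ M M' x : ℝ} (hf : Bd ρ (toR f) M)
    (hf' : Bd ρ (toR (dv f)) M') (hx : |x| < ρ) : HasDerivAt (ev f) (ev (dv f) x) x := by
  have h0 : 0 < ρ := (abs_nonneg x).trans_lt hx
  set c : ℕ → ℝ := fun n => ((PowerSeries.coeff n f : ℚ) : ℝ) with hc
  set u : ℕ → ℝ := fun n => n * |c n| * ρ ^ (n - 1) with hu
  have hdc : ∀ n, ((PowerSeries.coeff n (dv f) : ℚ) : ℝ) = c (n + 1) * ((n : ℝ) + 1) := by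
    intro n
    rw [PowerSeries.coeff_derivative, hc]
    push_cast
    ring
  have hus : Summable u := by
    rw [← summable_nat_add_iff 1]
    have h1 : Summable fun m => |PowerSeries.coeff m (toR (dv f))| * ρ ^ m :=
      summable_of_sum_range_le (fun _ => mul_nonneg (abs_nonneg _) (pow_nonneg h0.le _)) hf'
    refine h1.congr fun n => ?_
    rw [coeff_toR, hdc, hu, abs_mul, abs_of_nonneg (by positivity : (0 : ℝ) ≤ (n : ℝ) + 1)]
    push_cast
    ring
  have hfx : Summable fun n => c n * (0 : ℝ) ^ n :=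
    (bd_ab hf (x := 0) (by rw [abs_zero]; exact h0.le)).summable
  have key := hasDerivAt_tsum_of_isPreconnected (g := fun n y => c n * y ^ n)
    (g' := fun n y => c n * (n * y ^ (n - 1))) (t := Metric.ball (0 : ℝ) ρ) (y₀ := 0) (y := x)
    hus Metric.isOpen_ball (convex_ball (0 : ℝ) ρ).isPreconnected
    (fun n y _ => (hasDerivAt_pow n y).const_mul _) (fun n y hy => ?_) (Metric.mem_ball_self h0)
    hfx (by rwa [Metric.mem_ball, dist_zero_right])
  · have e : ev (dv f) x = ∑' n : ℕ, c n * (n * x ^ (n - 1)) := by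
      have hs : Summable fun n : ℕ => c n * (n * x ^ (n - 1)) := by
        refine Summable.of_norm_bounded hus fun n => ?_
        rw [Real.norm_eq_abs, abs_mul, abs_mul, Nat.abs_cast, abs_pow, hu]
        have : |x| ^ (n - 1) ≤ ρ ^ (n - 1) := pow_le_pow_left₀ (abs_nonneg _) hx.le _
        calc |c n| * (n * |x| ^ (n - 1)) = n * |c n| * |x| ^ (n - 1) := by ring
          _ ≤ _ := mul_le_mul_of_nonneg_left this (by positivity)
      rw [hs.tsum_eq_zero_add]
      simp only [Nat.cast_zero, zero_mul, mul_zero, zero_add]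
      rw [ev]
      refine tsum_congr fun n => ?_
      rw [hdc, Nat.add_sub_cancel]
      push_cast
      ring
    rw [e]
    exact key
  · rw [Metric.mem_ball, dist_zero_right, Real.norm_eq_abs] at hy
    rw [Real.norm_eq_abs, abs_mul, abs_mul, Nat.abs_cast, abs_pow, hu]
    have : |y| ^ (n - 1) ≤ ρ ^ (n - 1) := pow_le_pow_left₀ (abs_nonneg _) hy.le _
    calc |c n| * (n * |y| ^ (n - 1)) = n * |c n| * |y| ^ (n - 1) := by ring
      _ ≤ _ := mul_le_mul_of_nonneg_left this (by positivity)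

/-! ### the exponential of a nilpotent matrix -/

section exponential

variable {d : Type*} [Fintype d] [DecidableEq d]

theorem pow_card_eq_zero {N : Matrix d d ℤ} (hN : IsNilpotent N) : N ^ Fintype.card d = 0 := by
  have h1 := Matrix.isNilpotent_charpoly_sub_pow_of_isNilpotent hN
  have h2 : N.charpoly = Polynomial.X ^ Fintype.card d := sub_eq_zero.mp h1.eq_zero
  have h3 := Matrix.aeval_self_charpoly N
  rw [h2, map_pow, Polynomial.aeval_X] at h3
  exact h3

theorem eN_eq {N : Matrix d d ℤ} (hN : IsNilpotent N) {R : Type*} [CommRing R] [Algebra ℚ R]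
    (x : R) : eN N x = IsNilpotent.exp (x • N.map (fun y : ℤ => (y : R))) ∧
      IsNilpotent (x • N.map (fun y : ℤ => (y : R))) := by
  have hmap : ∀ j, (N ^ j).map (fun y : ℤ => (y : R)) = (N.map (fun y : ℤ => (y : R))) ^ j := by
    intro j
    have := map_pow (Int.castRingHom R).mapMatrix N j
    exact this
  have hpow : (x • N.map (fun y : ℤ => (y : R))) ^ Fintype.card d = 0 := by
    rw [smul_pow, ← hmap, pow_card_eq_zero hN]
    ext i j
    simp
  refine ⟨?_, _, hpow⟩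
  rw [IsNilpotent.exp_eq_sum hpow]
  unfold eN
  refine Finset.sum_congr rfl fun j _ => ?_
  rw [smul_pow, hmap, smul_assoc]

theorem eN_add {N : Matrix d d ℤ} (hN : IsNilpotent N) (x y : ℝ) :
    eN N (x + y) = eN N x * eN N y := by
  rw [(eN_eq hN x).1, (eN_eq hN y).1, (eN_eq hN (x + y)).1, add_smul]
  refine IsNilpotent.exp_add_of_commute ?_ (eN_eq hN x).2 (eN_eq hN y).2
  exact ((Commute.refl (N.map (fun y : ℤ => (y : ℝ)))).smul_left x).smul_right y

theorem ev_intCast (m : ℤ) (x : ℝ) : Ab ((m : ℤ) : PowerSeries ℚ) x ∧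
    ev ((m : ℤ) : PowerSeries ℚ) x = m := by
  have h : ((m : ℤ) : PowerSeries ℚ) = (m : ℚ) • (1 : PowerSeries ℚ) := by
    rw [PowerSeries.smul_eq_C_mul, mul_one, map_intCast]
  rw [h]
  refine ⟨ab_smul _ (ab_one x), ?_⟩
  rw [ev_smul, ev_one, mul_one]
  norm_cast

theorem eN_ev (N : Matrix d d ℤ) {f : PowerSeries ℚ} {x : ℝ} (hf : Ab f x) :
    (∀ i j, Ab (eN N f i j) x) ∧ (eN N f).map (fun g => ev g x) = eN N (ev f x) := by
  have hE : E3 := fun f g x hf hg => MT100.H47.eva3 f g x hf hg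
  have hterm : ∀ (i j : d) (t : ℕ), Ab (((((t.factorial : ℚ)⁻¹) • f ^ t) *
      ((((N ^ t) i j : ℤ)) : PowerSeries ℚ))) x ∧
      ev ((((t.factorial : ℚ)⁻¹) • f ^ t) * ((((N ^ t) i j : ℤ)) : PowerSeries ℚ)) x =
        (((t.factorial : ℚ)⁻¹) • (ev f x) ^ t) * (((N ^ t) i j : ℤ) : ℝ) := by
    intro i j t
    have h1 := pow_ev hE hf t
    have h2 := ev_intCast ((N ^ t) i j) x
    have h3 := hE _ _ x (ab_smul ((t.factorial : ℚ)⁻¹) h1.1) h2.1
    refine ⟨h3.1, ?_⟩
    rw [h3.2.2.2, ev_smul, h1.2, h2.2, Rat.smul_def]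
  have hentry : ∀ {R : Type} [CommRing R] [Algebra ℚ R] (y : R) (i j : d),
      eN N y i j = ∑ t ∈ Finset.range (Fintype.card d),
        (((t.factorial : ℚ)⁻¹) • y ^ t) * (((N ^ t) i j : ℤ) : R) := by
    intro R _ _ y i j
    unfold eN
    rw [Matrix.sum_apply]
    refine Finset.sum_congr rfl fun t _ => ?_
    rw [Matrix.smul_apply, Matrix.map_apply, smul_eq_mul]
  constructor
  · intro i j
    rw [hentry]
    exact (sum_ev hE _ _ fun t _ => (hterm i j t).1).1
  · ext i j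
    rw [Matrix.map_apply, hentry, hentry, (sum_ev hE _ _ fun t _ => (hterm i j t).1).2]
    exact Finset.sum_congr rfl fun t _ => (hterm i j t).2

end exponential

/-! ### the series of the pullback -/

/-- the value of the reversed polynomial -/
theorem rvp_eval (φ : Polynomial ℚ) (κ : ℕ) {w : ℝ} (hw : w ≠ 0) :
    pv φ (w - κ) = w ^ φ.natDegree * pv (rvp φ κ) w⁻¹ := by
  unfold pv rvp
  rw [Polynomial.eval_map, Polynomial.eval₂_eq_sum_range, Polynomial.eval_map,
    Polynomial.eval₂_finsetSum, Finset.mul_sum]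
  refine Finset.sum_congr rfl fun j hj => ?_
  have hj' : j ≤ φ.natDegree := Nat.lt_succ_iff.mp (Finset.mem_range.mp hj)
  rw [Polynomial.eval₂_mul, Polynomial.eval₂_mul, Polynomial.eval₂_pow, Polynomial.eval₂_pow,
    Polynomial.eval₂_sub, Polynomial.eval₂_one, Polynomial.eval₂_mul, Polynomial.eval₂_C,
    Polynomial.eval₂_C, Polynomial.eval₂_X]
  have h1 : w ^ φ.natDegree = w ^ j * w ^ (φ.natDegree - j) := by
    rw [← pow_add, Nat.add_sub_cancel' hj']
  have h2 : w ^ (φ.natDegree - j) * w⁻¹ ^ (φ.natDegree - j) = 1 := by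
    rw [← mul_pow, mul_inv_cancel₀ hw, one_pow]
  have h3 : w ^ j * (1 - algebraMap ℚ ℝ (κ : ℚ) * w⁻¹) ^ j = (w - κ) ^ j := by
    rw [← mul_pow]
    congr 1
    have : algebraMap ℚ ℝ (κ : ℚ) = (κ : ℝ) := by simp
    rw [this]
    field_simp
  rw [h1]
  calc algebraMap ℚ ℝ (φ.coeff j) * (w - κ) ^ j =
      algebraMap ℚ ℝ (φ.coeff j) * (w ^ j * (1 - algebraMap ℚ ℝ (κ : ℚ) * w⁻¹) ^ j) *
        (w ^ (φ.natDegree - j) * w⁻¹ ^ (φ.natDegree - j)) := by rw [h3, h2, mul_one]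
    _ = _ := by ring

theorem rvp_zero (φ : Polynomial ℚ) (κ : ℕ) : (rvp φ κ).eval 0 = φ.leadingCoeff := by
  unfold rvp
  rw [Polynomial.eval_finsetSum, Finset.sum_range_succ, Finset.sum_eq_zero]
  · rw [Nat.sub_self, pow_zero, mul_one, zero_add, Polynomial.eval_mul, Polynomial.eval_pow,
      Polynomial.eval_sub, Polynomial.eval_one, Polynomial.eval_mul, Polynomial.eval_X, mul_zero,
      sub_zero, one_pow, mul_one, Polynomial.eval_C]
    rfl
  · intro j hj
    have hj' := Finset.mem_range.mp hj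
    rw [Polynomial.eval_mul, Polynomial.eval_pow, Polynomial.eval_X, zero_pow (by omega), mul_zero]

theorem pv_rvp_zero (φ : Polynomial ℚ) (κ : ℕ) : pv (rvp φ κ) 0 = (φ.leadingCoeff : ℝ) := by
  unfold pv
  rw [Polynomial.eval_zero_map, rvp_zero]
  rfl

theorem const_rvp (φ : Polynomial ℚ) (κ : ℕ) :
    PowerSeries.constantCoeff ((rvp φ κ : Polynomial ℚ) : PowerSeries ℚ) = φ.leadingCoeff := by
  rw [← PowerSeries.coeff_zero_eq_constantCoeff_apply, Polynomial.coeff_coe,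
    Polynomial.coeff_zero_eq_eval_zero, rvp_zero]

/-- the logarithm series -/
theorem dv_lgp (φ : Polynomial ℚ) (κ : ℕ) : dv (lgp φ κ) =
    -((Polynomial.derivative (rvp φ κ) : Polynomial ℚ) : PowerSeries ℚ) *
      ((rvp φ κ : Polynomial ℚ) : PowerSeries ℚ)⁻¹ := by
  ext n
  rw [PowerSeries.coeff_derivative, lgp, PowerSeries.coeff_mk, if_neg (Nat.succ_ne_zero n),
    Nat.add_sub_cancel]
  have : ((n + 1 : ℕ) : ℚ) ≠ 0 := by positivity
  push_cast at this ⊢
  field_simp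

theorem cv_lgp {φ : Polynomial ℚ} (κ : ℕ) (hc : φ.leadingCoeff ≠ 0) :
    ∃ ρ M : ℝ, 0 < ρ ∧ Bd ρ (toR (lgp φ κ)) M ∧ Bd ρ (toR (dv (lgp φ κ))) M := by
  have h1 : Cv (((rvp φ κ : Polynomial ℚ) : PowerSeries ℚ)⁻¹) :=
    (cv_poly _).inv (by rw [const_rvp]; exact hc)
  have h2 : Cv (dv (lgp φ κ)) := by
    rw [dv_lgp]
    exact ((cv_poly _).neg).mul h1
  obtain ⟨ρ, M, hρ, h3⟩ := h2
  have h4 : Bd ρ (PowerSeries.X * toR (dv (lgp φ κ))) (ρ * M) := (Bd.X hρ.le).mul h3 hρ.le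
  refine ⟨ρ, max (ρ * M) M, hρ, ?_, h3.mono (le_max_right _ _)⟩
  refine (h4.of_coeff_le hρ.le fun m => ?_).mono (le_max_left _ _)
  cases m with
  | zero =>
    rw [coeff_toR, lgp, PowerSeries.coeff_mk, if_pos rfl, Rat.cast_zero, abs_zero]
    exact abs_nonneg _
  | succ m =>
    rw [PowerSeries.coeff_succ_X_mul, coeff_toR, coeff_toR, PowerSeries.coeff_derivative]
    push_cast
    rw [abs_mul, abs_of_nonneg (by positivity : (0 : ℝ) ≤ (m : ℝ) + 1)]
    have h5 : (0 : ℝ) ≤ |((PowerSeries.coeff (m + 1) (lgp φ κ) : ℚ) : ℝ)| := abs_nonneg _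
    have h6 : (1 : ℝ) ≤ (m : ℝ) + 1 := by
      have : (0 : ℝ) ≤ (m : ℝ) := Nat.cast_nonneg m
      linarith
    nlinarith

/-- all the values near zero -/
theorem near_zero {φ : Polynomial ℚ} (κ : ℕ) (hd : 0 < φ.natDegree) (hc : 0 < φ.leadingCoeff) :
    ∃ δ : ℝ, 0 < δ ∧ ∀ x : ℝ, 0 ≤ x → x < δ →
      0 < pv (rvp φ κ) x ∧ Ab (mobp φ κ) x ∧ ev (mobp φ κ) x = x ^ φ.natDegree *
        (pv (rvp φ κ) x)⁻¹ ∧ Ab (lgp φ κ) x ∧
        ev (lgp φ κ) x = -Real.log (pv (rvp φ κ) x / (φ.leadingCoeff : ℝ)) := by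
  have hE : E3 := fun f g x hf hg => MT100.H47.eva3 f g x hf hg
  have hcR : (0 : ℝ) < (φ.leadingCoeff : ℝ) := by exact_mod_cast hc
  set r := rvp φ κ with hr
  have hconst : PowerSeries.constantCoeff ((r : Polynomial ℚ) : PowerSeries ℚ) ≠ 0 := by
    rw [hr, const_rvp]
    exact hc.ne'
  have hinv : Cv (((r : Polynomial ℚ) : PowerSeries ℚ)⁻¹) := (cv_poly _).inv hconst
  obtain ⟨ρ₁, hρ₁, hinv'⟩ := hinv.ab
  obtain ⟨ρ₂, hρ₂, hpol⟩ := (cv_poly r).ab
  obtain ⟨ρ₃, M, hρ₃, hL, hL'⟩ := cv_lgp (φ := φ) κ hc.ne'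
  obtain ⟨ρ₅, hρ₅, hdpol⟩ := (cv_poly (Polynomial.derivative r)).ab
  have hcont : Continuous (pv r) := by
    unfold pv
    exact (r.map (algebraMap ℚ ℝ)).continuous
  have hpos0 : 0 < pv r 0 := by
    rw [hr, pv_rvp_zero]
    exact hcR
  obtain ⟨ρ₄, hρ₄, hpos⟩ : ∃ ρ₄ : ℝ, 0 < ρ₄ ∧ ∀ x, |x| < ρ₄ → 0 < pv r x := by
    have h1 := hcont.continuousAt.eventually (lt_mem_nhds hpos0)
    obtain ⟨ε, hε, h2⟩ := Metric.eventually_nhds_iff.mp h1
    exact ⟨ε, hε, fun x hx => h2 (by rwa [dist_zero_right, Real.norm_eq_abs])⟩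
  set δ : ℝ := min (min ρ₁ ρ₂) (min (min ρ₃ ρ₄) ρ₅) with hδ
  have hδ0 : 0 < δ := lt_min (lt_min hρ₁ hρ₂) (lt_min (lt_min hρ₃ hρ₄) hρ₅)
  have hev : ∀ x, |x| < δ → ev (((r : Polynomial ℚ) : PowerSeries ℚ)⁻¹) x = (pv r x)⁻¹ ∧
      Ab (((r : Polynomial ℚ) : PowerSeries ℚ)⁻¹) x := by
    intro x hx
    have a1 : Ab (((r : Polynomial ℚ) : PowerSeries ℚ)⁻¹) x :=
      hinv' x (hx.le.trans ((min_le_left _ _).trans (min_le_left _ _)))
    have a2 : Ab ((r : Polynomial ℚ) : PowerSeries ℚ) x :=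
      hpol x (hx.le.trans ((min_le_left _ _).trans (min_le_right _ _)))
    have h1 := (hE _ _ x a2 a1).2.2.2
    rw [PowerSeries.mul_inv_cancel _ hconst, ev_one, MT100.H47.eva2] at h1
    refine ⟨?_, a1⟩
    rw [eq_comm, inv_eq_iff_eq_inv]
    have h2 : pv r x * ev (((r : Polynomial ℚ) : PowerSeries ℚ)⁻¹) x = 1 := h1.symm
    exact eq_inv_of_mul_eq_one_left h2
  -- the logarithm
  have hlog : ∀ y, |y| < δ → HasDerivAt
      (fun y => ev (lgp φ κ) y + Real.log (pv r y / (φ.leadingCoeff : ℝ))) 0 y := by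
    intro y hy
    have hy3 : |y| < ρ₃ := lt_of_lt_of_le hy
      ((min_le_right _ _).trans ((min_le_left _ _).trans (min_le_left _ _)))
    have hy4 : |y| < ρ₄ := lt_of_lt_of_le hy
      ((min_le_right _ _).trans ((min_le_left _ _).trans (min_le_right _ _)))
    have hy5 : |y| ≤ ρ₅ := hy.le.trans ((min_le_right _ _).trans (min_le_right _ _))
    have h1 := hasDeriv_ev hL hL' hy3
    obtain ⟨h2, h2'⟩ := hev y hy
    have h3 : ev (dv (lgp φ κ)) y = -(pv (Polynomial.derivative r) y) * (pv r y)⁻¹ := by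
      rw [dv_lgp, ← hr]
      have a1 : Ab ((Polynomial.derivative r : Polynomial ℚ) : PowerSeries ℚ) y := hdpol y hy5
      have e1 : -((Polynomial.derivative r : Polynomial ℚ) : PowerSeries ℚ) =
          (-1 : ℚ) • ((Polynomial.derivative r : Polynomial ℚ) : PowerSeries ℚ) := by
        rw [neg_smul, one_smul]
      rw [e1, (hE _ _ y (ab_smul (-1) a1) h2').2.2.2, ev_smul, h2, MT100.H47.eva2]
      unfold pv
      push_cast
      ring
    have hp := hpos y hy4
    have h4 : HasDerivAt (pv r) (pv (Polynomial.derivative r) y) y := by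
      unfold pv
      rw [← Polynomial.derivative_map]
      exact (r.map (algebraMap ℚ ℝ)).hasDerivAt y
    have h5 : HasDerivAt (fun y => pv r y / (φ.leadingCoeff : ℝ))
        (pv (Polynomial.derivative r) y / (φ.leadingCoeff : ℝ)) y := h4.div_const _
    have h6 := h5.log (div_pos hp hcR).ne'
    have h7 := h1.add h6
    rw [h3] at h7
    have h8 : -(pv (Polynomial.derivative r) y) * (pv r y)⁻¹ +
        pv (Polynomial.derivative r) y / (φ.leadingCoeff : ℝ) /
          (pv r y / (φ.leadingCoeff : ℝ)) = 0 := by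
      field_simp
      ring
    rw [h8] at h7
    exact h7
  refine ⟨δ, hδ0, fun x hx0 hx => ?_⟩
  have hxa : |x| < δ := by rwa [abs_of_nonneg hx0]
  have hx4 : |x| < ρ₄ := lt_of_lt_of_le hxa
    ((min_le_right _ _).trans ((min_le_left _ _).trans (min_le_right _ _)))
  have hx3 : |x| ≤ ρ₃ := hxa.le.trans
    ((min_le_right _ _).trans ((min_le_left _ _).trans (min_le_left _ _)))
  obtain ⟨h1, h1'⟩ := hev x hxa
  have hXd : Ab ((PowerSeries.X : PowerSeries ℚ) ^ φ.natDegree) x ∧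
      ev ((PowerSeries.X : PowerSeries ℚ) ^ φ.natDegree) x = x ^ φ.natDegree := by
    have e1 : ((Polynomial.X ^ φ.natDegree : Polynomial ℚ) : PowerSeries ℚ) =
        (PowerSeries.X : PowerSeries ℚ) ^ φ.natDegree := by
      rw [Polynomial.coe_pow, Polynomial.coe_X]
    rw [← e1]
    constructor
    · unfold Ab
      refine summable_of_ne_finset_zero (s := {φ.natDegree}) fun k hk => ?_
      rw [Finset.mem_singleton] at hk
      rw [Polynomial.coeff_coe, Polynomial.coeff_X_pow, if_neg hk]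
      simp
    · rw [MT100.H47.eva2]
      simp
  have hmob := hE _ _ x hXd.1 h1'
  refine ⟨hpos x hx4, hmob.1, ?_, bd_ab hL hx3, ?_⟩
  · show ev (PowerSeries.X ^ φ.natDegree * ((r : Polynomial ℚ) : PowerSeries ℚ)⁻¹) x = _
    rw [hmob.2.2.2, hXd.2, h1]
  · have hconst' := constant_of_has_deriv_right_zero
      (f := fun y => ev (lgp φ κ) y + Real.log (pv r y / (φ.leadingCoeff : ℝ))) (a := 0) (b := x)
      (fun y hy => (hlog y (by
        rw [abs_of_nonneg hy.1]
        exact lt_of_le_of_lt hy.2 hx)).continuousAt.continuousWithinAt)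
      (fun y hy => (hlog y (by
        rw [abs_of_nonneg hy.1]
        exact hy.2.trans hx)).hasDerivWithinAt) x ⟨hx0, le_rfl⟩
    have h0 : ev (lgp φ κ) 0 + Real.log (pv r 0 / (φ.leadingCoeff : ℝ)) = 0 := by
      have e1 : pv r 0 / (φ.leadingCoeff : ℝ) = 1 := by
        rw [hr, pv_rvp_zero, div_self hcR.ne']
      have e2 : ev (lgp φ κ) 0 = 0 := by
        unfold ev
        rw [tsum_eq_single 0]
        · rw [lgp, PowerSeries.coeff_mk, if_pos rfl, Rat.cast_zero, zero_mul]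
        · intro k hk
          rw [zero_pow hk, mul_zero]
      rw [e1, e2, Real.log_one, add_zero]
    rw [h0] at hconst'
    linarith

/-- VAG -/
theorem vag : VagStmt := by
  intro d _ _ H N hN hG φ hd hc κ
  have hE : E3 := fun f g x hf hg => MT100.H47.eva3 f g x hf hg
  have hcR : (0 : ℝ) < (φ.leadingCoeff : ℝ) := by exact_mod_cast hc
  have hmob0 : PowerSeries.constantCoeff (mobp φ κ) = 0 := by
    unfold mobp
    rw [map_mul, map_pow, PowerSeries.constantCoeff_X, zero_pow hd.ne', zero_mul]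
  have hinv : Cv (((rvp φ κ : Polynomial ℚ) : PowerSeries ℚ)⁻¹) :=
    (cv_poly _).inv (by rw [const_rvp]; exact hc.ne')
  have hmobcv : Cv (mobp φ κ) := by
    unfold mobp
    refine Cv.mul ?_ hinv
    have e1 : ((Polynomial.X ^ φ.natDegree : Polynomial ℚ) : PowerSeries ℚ) =
        (PowerSeries.X : PowerSeries ℚ) ^ φ.natDegree := by
      rw [Polynomial.coe_pow, Polynomial.coe_X]
    rw [← e1]
    exact cv_poly _
  obtain ⟨δ, hδ, hnear⟩ := near_zero (φ := φ) κ hd hc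
  have hsub : ∀ i j, ∃ δ : ℝ, 0 < δ ∧ ∀ x, |x| ≤ δ →
      Ab ((H i j).subst (mobp φ κ)) x ∧
        ev ((H i j).subst (mobp φ κ)) x = ev (H i j) (ev (mobp φ κ) x) := fun i j =>
    subst_cv (cv_gtype (hG i j)) hmobcv hmob0
  choose ε hε hεs using hsub
  have hev1 : ∀ᶠ w : ℝ in Filter.atTop, ∀ i j, w⁻¹ ≤ ε i j := by
    rw [Filter.eventually_all]
    intro i
    rw [Filter.eventually_all]
    intro j
    filter_upwards [Filter.eventually_ge_atTop (ε i j)⁻¹, Filter.eventually_gt_atTop 0] with w h1 h2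
    rw [inv_le_comm₀ h2 (hε i j)]
    exact h1
  filter_upwards [hev1, Filter.eventually_gt_atTop δ⁻¹, Filter.eventually_gt_atTop 0] with w h1 h2 h3
  have hx : 0 < w⁻¹ := inv_pos.mpr h3
  have hxδ : w⁻¹ < δ := by
    rw [inv_lt_comm₀ h3 hδ]
    exact h2
  obtain ⟨g1, g2, g3, g4, g5⟩ := hnear w⁻¹ hx.le hxδ
  have hval := rvp_eval φ κ h3.ne'
  have hmobv : ev (mobp φ κ) w⁻¹ = (pv φ (w - κ))⁻¹ := by
    rw [g3, hval, mul_inv, inv_pow]
  have hent : ∀ i j, Ab ((H i j).subst (mobp φ κ)) w⁻¹ ∧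
      ev ((H i j).subst (mobp φ κ)) w⁻¹ = ev (H i j) (pv φ (w - κ))⁻¹ := by
    intro i j
    have := hεs i j w⁻¹ (by rw [abs_of_pos hx]; exact h1 i j)
    rw [hmobv] at this
    exact this
  have hen := eN_ev N g4
  have hT : (TrG H N φ κ).map (fun f => ev f w⁻¹) =
      H.map (fun f => ev f (pv φ (w - κ))⁻¹) *
        eN N (-Real.log (pv (rvp φ κ) w⁻¹ / (φ.leadingCoeff : ℝ))) := by
    unfold TrG
    rw [mul_ev hE _ _ (fun i j => by rw [Matrix.map_apply]; exact (hent i j).1) hen.1, hen.2, g5]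
    congr 1
    ext i j
    rw [Matrix.map_apply, Matrix.map_apply, Matrix.map_apply, (hent i j).2]
  rw [hT, Matrix.mul_assoc, ← eN_add hN]
  congr 2
  have hwd : 0 < w ^ φ.natDegree := pow_pos h3 _
  rw [hval, Real.log_mul hwd.ne' g1.ne', Real.log_pow, Real.log_div g1.ne' hcR.ne']
  ring

end Pool.Agent.Helper65MT100
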