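import Pool.Agent.Helper65_MT100.Vag

/-! VAP: the values of the pullback of the hypergeometric system -/

set_option autoImplicit false

namespace Pool.Agent.Helper65MT100

open Pool.Agent.MT100 Matrix

theorem nsh_pow (r k : ℕ) (l i : Fin r) : (Nsh r ^ k) l i = if (l : ℕ) + k = i then 1 else 0 := by
  induction k generalizing l i with
  | zero =>
    rw [pow_zero, Matrix.one_apply, add_zero]
    by_cases h : l = i
    · rw [if_pos h, if_pos (congrArg Fin.val h)]
    · rw [if_neg h, if_neg (fun h' => h (Fin.ext h'))]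
  | succ k ih =>
    rw [pow_succ, Matrix.mul_apply]
    by_cases h : (l : ℕ) + (k + 1) = i
    · have hlt : (l : ℕ) + k < r := by have := i.2; omega
      rw [if_pos h, Finset.sum_eq_single ⟨(l : ℕ) + k, hlt⟩]
      · rw [ih, if_pos rfl, Nsh, if_pos (by show (l : ℕ) + k + 1 = i; omega), mul_one]
      · intro b _ hb
        rw [ih, if_neg (fun h' => hb (Fin.ext h'.symm)), zero_mul]
      · intro h'
        exact absurd (Finset.mem_univ _) h'
    · rw [if_neg h]
      refine Finset.sum_eq_zero fun b _ => ?_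
      rw [ih, Nsh]
      by_cases h1 : (l : ℕ) + k = b
      · rw [if_pos h1, if_neg (by omega : ¬ (b : ℕ) + 1 = i), mul_zero]
      · rw [if_neg h1, zero_mul]

theorem nsh_nil (r : ℕ) : IsNilpotent (Nsh r) := by
  refine ⟨r, ?_⟩
  ext l i
  rw [nsh_pow, if_neg (by have := i.2; omega)]
  rfl

/-- VAP -/
theorem vap (hEns : EnsStmt) (hHgt : HgtStmt) : VapStmt := by
  intro D φ hd hc κ
  have h := vag (Fin D.r) (Hyp D) (Nsh D.r) (nsh_nil D.r) (fun i j => hHgt D i j) φ hd hc κ
  filter_upwards [h] with w hw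
  unfold TrG at hw
  rw [hEns, hEns, hEns] at hw
  exact hw

end Pool.Agent.Helper65MT100
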